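import Pool.Agent.Q172.JonesC.Main

/-!
# Bellamy's question on continua for which Jones's set function `T` is continuous

If `T` is continuous for the Hausdorff continuum `S` and `T {p}` has an interior point for some
`p`, then `S` is indecomposable.

Definitions from `Pool.Agent.Q172.JonesC.Basic`:
* `IsSubcontinuum K` : `K` is a nonempty compact connected subset;
* `jonesT A` : the complement of the set of all `p` for which there is a subcontinuum `K` with
  `p ∈ interior K` and `K ∩ A = ∅`.
-/

set_option autoImplicit false

open Set Topology TopologicalSpace Q172.JonesC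

universe u

namespace Pool.Agent.Results.MP_3a3191_gt.ContinuousT

/-- `T` is continuous for `S`: the map `A ↦ T A` is continuous on the hyperspace of all nonempty
closed subsets of `S` with the Vietoris topology. -/
def TContinuous (S : Type u) [TopologicalSpace S] : Prop :=
  @ContinuousOn (Set S) (Set S) (TopologicalSpace.vietoris S) (TopologicalSpace.vietoris S)
    jonesT {A | IsClosed A ∧ A.Nonempty}

/-- `S` is not the union of two proper subcontinua. -/
def Indecomposable (S : Type u) [TopologicalSpace S] : Prop :=
  ¬ ∃ A B : Set S, IsSubcontinuum A ∧ IsSubcontinuum B ∧ A ≠ univ ∧ B ≠ univ ∧ A ∪ B = univ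

theorem result : ∀ (S : Type u) [TopologicalSpace S] [CompactSpace S] [T2Space S]
    [ConnectedSpace S], TContinuous S →
    ∀ p : S, (interior (jonesT {p})).Nonempty → Indecomposable S := by
  intro S _ _ _ _ hT p hp
  rintro ⟨A, B, hA, hB, hAu, hBu, hun⟩
  let τ : NonemptyCompacts S → NonemptyCompacts S := fun A =>
    mkNC (jonesT (A : Set S)) (isClosed_T _) (A.nonempty.mono (subset_T _))
  have hc : ∀ A : NonemptyCompacts S, (τ A : Set S) = jonesT (A : Set S) := fun A => rfl
  have hτ : Continuous τ := by
    let _ : TopologicalSpace (Set S) := TopologicalSpace.vietoris S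
    rw [NonemptyCompacts.isEmbedding_coe.continuous_iff]
    have h1 : ContinuousOn (jonesT : Set S → Set S) {A | IsClosed A ∧ A.Nonempty} := hT
    exact h1.comp_continuous NonemptyCompacts.continuous_coe
      (fun A => ⟨A.isCompact.isClosed, A.nonempty⟩)
  exact indecomposable_of_continuous hτ hc hp hA hB hAu hBu hun

end Pool.Agent.Results.MP_3a3191_gt.ContinuousT
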